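import Pool.Agent.Lib.helper19.StatFilter

set_option autoImplicit false

namespace Pool.Agent.Results.MP_78c350_an.No

open Filter Set Cardinal Pool.Agent.Lib.helper19.StatFilter

lemma pseudo {ι : Type} [Countable ι] (Z : ι → Set ℕ)
    (h : ∀ s : Finset ι, (⋂ i ∈ s, Z i).Infinite) :
    ∃ Y : Set ℕ, Y.Infinite ∧ ∀ i, (Y \ Z i).Finite := by
  obtain ⟨e, he⟩ := exists_injective_nat ι
  have hf : ∀ n, (e ⁻¹' {m | m < n}).Finite := fun n => (finite_lt_nat n).preimage he.injOn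
  choose y hy1 hy2 using fun n => (h (hf n).toFinset).exists_gt n
  refine ⟨range y, infinite_of_forall_exists_gt fun n => ⟨y n, ⟨n, rfl⟩, hy2 n⟩, fun i => ?_⟩
  refine ((finite_le_nat (e i)).image y).subset ?_
  rintro _ ⟨⟨n, rfl⟩, hn⟩
  refine ⟨n, ?_, rfl⟩
  by_contra hlt
  exact hn (mem_iInter₂.1 (hy1 n) i (by simpa using hlt))

lemma split {Y : Set ℕ} (h : Y.Infinite) :
    ∃ A Z : Set ℕ, A ⊆ Y ∧ Z ⊆ Y ∧ A.Infinite ∧ Z.Infinite ∧ Disjoint A Z := by
  let f := h.natEmbedding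
  refine ⟨range fun n => (f (2 * n) : ℕ), range fun n => (f (2 * n + 1) : ℕ), ?_, ?_, ?_, ?_, ?_⟩
  · rintro _ ⟨n, rfl⟩; exact (f _).2
  · rintro _ ⟨n, rfl⟩; exact (f _).2
  · exact infinite_range_of_injective fun m n h => by
      have := f.injective (Subtype.ext h); omega
  · exact infinite_range_of_injective fun m n h => by
      have := f.injective (Subtype.ext h); omega
  · refine disjoint_left.2 ?_
    rintro _ ⟨n, rfl⟩ ⟨m, hm⟩
    have := f.injective (Subtype.ext hm); omega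

lemma ultra {A : Set ℕ} (h : A.Infinite) : ∃ U : Ultrafilter ℕ, (U : Filter ℕ) ≤ cofinite ∧ A ∈ U := by
  have : (cofinite ⊓ 𝓟 A).NeBot := h.cofinite_inf_principal_neBot
  exact ⟨Ultrafilter.of (cofinite ⊓ 𝓟 A), (Ultrafilter.of_le _).trans inf_le_left,
    le_principal_iff.1 ((Ultrafilter.of_le _).trans inf_le_right)⟩

lemma small {T : Type} (U : T → Ultrafilter ℕ) (S : Set T) (hS : #S < 𝔠) {D : ℕ → Set ℕ}
    (h1 : Pairwise (fun m n => Disjoint (D m) (D n))) (h2 : ∀ n t, D n ∉ U t) :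
    ∃ M : Set ℕ, M.Infinite ∧ ∀ t ∈ S, (⋃ n ∈ M, D n) ∉ U t := by
  obtain ⟨M, hM1, hM2⟩ := exists_ad
  by_contra hcon
  push Not at hcon
  choose t ht1 ht2 using fun X => hcon (M X) (hM1 X)
  have hinj : Function.Injective fun X => (⟨t X, ht1 X⟩ : S) := by
    intro X Y hXY
    by_contra hne
    have e : t X = t Y := congrArg Subtype.val hXY
    have := inter_small (F := (U (t X) : Filter ℕ)) h1
      (fun n => Ultrafilter.compl_mem_iff_notMem.2 (h2 n _)) (hM2 X Y hne)
    exact Ultrafilter.compl_mem_iff_notMem.1 this (inter_mem (ht2 X) (e ▸ ht2 Y))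
  have := mk_le_of_injective hinj
  simp at this
  exact absurd hS (not_lt.2 this)

lemma tower {T : Type} [LinearOrder T] [WellFoundedLT T] (hT : ∀ t : T, (Iio t).Countable)
    (e : T → Set ℕ) : ∃ g : T → Set ℕ × Set ℕ, ∀ t, (g t).1.Infinite ∧ (g t).2.Infinite ∧
      Disjoint (g t).1 (g t).2 ∧ ((g t).2 ⊆ e t ∨ (g t).2 ⊆ (e t)ᶜ) ∧
      ∀ u, u < t → ((g t).1 \ (g u).2).Finite ∧ ((g t).2 \ (g u).2).Finite := by
  let P : ∀ t : T, (∀ u, u < t → Set ℕ × Set ℕ) → Set ℕ × Set ℕ → Prop := fun t r x =>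
    x.1.Infinite ∧ x.2.Infinite ∧ Disjoint x.1 x.2 ∧ (x.2 ⊆ e t ∨ x.2 ⊆ (e t)ᶜ) ∧
      ∀ u (h : u < t), (x.1 \ (r u h).2).Finite ∧ (x.2 \ (r u h).2).Finite
  let g : T → Set ℕ × Set ℕ := wellFounded_lt.fix fun t r => Classical.epsilon (P t r)
  have hg : ∀ t, g t = Classical.epsilon (P t fun u _ => g u) := fun t =>
    WellFounded.fix_eq _ _ _
  refine ⟨g, fun t => ?_⟩
  show P t (fun u _ => g u) (g t)
  induction t using WellFoundedLT.induction with
  | ind t ih =>
    rw [hg t]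
    apply Classical.epsilon_spec
    have := (hT t).to_subtype
    obtain ⟨Y, hY, hY'⟩ := pseudo (fun u : Iio t => (g u).2) (by
      intro s
      rcases s.eq_empty_or_nonempty with rfl | hne
      · simpa using infinite_univ
      · intro hfin
        refine (ih _ (s.max' hne).2).2.1 ((hfin.union (s.finite_toSet.biUnion
          (t := fun u : Iio t => (g (s.max' hne)).2 \ (g u).2) fun u hu => ?_)).subset ?_)
        · rcases (s.le_max' u hu).eq_or_lt with h | h
          · rw [← h]; simp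
          · exact ((ih _ (s.max' hne).2).2.2.2.2 u h).2
        · intro x hx
          by_cases h : x ∈ ⋂ i ∈ s, (g i).2
          · exact Or.inl h
          · simp only [mem_iInter, not_forall] at h
            obtain ⟨u, hu, h⟩ := h
            exact Or.inr (mem_iUnion₂.2 ⟨u, hu, hx, h⟩))
    obtain ⟨Y', h1, h2, h3⟩ : ∃ Y' ⊆ Y, Y'.Infinite ∧ (Y' ⊆ e t ∨ Y' ⊆ (e t)ᶜ) := by
      rw [← inter_union_sdiff Y (e t), infinite_union] at hY
      rcases hY with h | h
      · exact ⟨_, inter_subset_left, h, Or.inl inter_subset_right⟩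
      · exact ⟨_, sdiff_subset, h, Or.inr fun x hx => hx.2⟩
    obtain ⟨A, Z, a1, a2, a3, a4, a5⟩ := split h2
    exact ⟨(A, Z), a3, a4, a5, h3.imp a2.trans a2.trans, fun u hu =>
      ⟨(hY' ⟨u, hu⟩).subset (sdiff_subset_sdiff_left (a1.trans h1)),
        (hY' ⟨u, hu⟩).subset (sdiff_subset_sdiff_left (a2.trans h1))⟩⟩

lemma family : ∃ (T : Type) (A : T → Set ℕ) (U : T → Ultrafilter ℕ), Uncountable T ∧
    (∀ t, (U t : Filter ℕ) ≤ cofinite ∧ A t ∈ U t) ∧ (∀ s t, s ≠ t → (A s ∩ A t).Finite) ∧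
    ∀ D : ℕ → Set ℕ, Pairwise (fun m n => Disjoint (D m) (D n)) → (∀ n t, D n ∉ U t) →
      ∃ M : Set ℕ, M.Infinite ∧ ∀ t, (⋃ n ∈ M, D n) ∉ U t := by
  let T := (ℵ₁ : Cardinal.{0}).ord.ToType
  have hT : #T = ℵ₁ := by simp [T]
  have hunc : Uncountable T := by
    rw [← aleph0_lt_mk_iff, hT]; exact aleph0_lt_aleph_one
  rcases lt_or_ge (ℵ₁ : Cardinal.{0}) 𝔠 with h | h
  · obtain ⟨M, hM1, hM2⟩ := exists_ad
    obtain ⟨e⟩ : #T ≤ #(Set ℕ) := by simp [hT, h.le]
    choose U hU using fun t => ultra (hM1 (e t))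
    refine ⟨T, fun t => M (e t), U, hunc, hU, fun s t hst => hM2 _ _ (e.injective.ne hst),
      fun D h1 h2 => ?_⟩
    obtain ⟨N, hN, hN'⟩ := small U univ (by rwa [mk_univ, hT]) h1 h2
    exact ⟨N, hN, fun t => hN' t trivial⟩
  · have hI : ∀ t : T, (Iio t).Countable := fun t => by
      rw [← le_aleph0_iff_set_countable, ← Order.lt_succ_iff, succ_aleph0]
      exact mk_Iio_toType_ord_lt t
    obtain ⟨e⟩ : Nonempty (T ≃ Set ℕ) := Cardinal.eq.1 (by
      rw [hT]; simpa using le_antisymm aleph_one_le_continuum h)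
    obtain ⟨g, hg⟩ := tower hI e
    choose U hU using fun t => ultra (hg t).1
    refine ⟨T, fun t => (g t).1, U, hunc, hU, ?_, fun D h1 h2 => ?_⟩
    · have : ∀ s t, s < t → ((g s).1 ∩ (g t).1).Finite := fun s t h =>
        ((hg t).2.2.2.2 s h).1.subset fun x hx => ⟨hx.2, disjoint_left.1 (hg s).2.2.1 hx.1⟩
      intro s t hst
      rcases lt_or_gt_of_ne hst with h | h
      · exact this s t h
      · rw [inter_comm]; exact this t s h
    · have hZ : ∀ s t, s < t → (g s).2 ∈ U t := fun s t h =>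
        mem_of_superset (inter_mem (hU t).2 ((hU t).1 ((hg t).2.2.2.2 s h).1.compl_mem_cofinite))
          fun x hx => by
            by_contra h'
            exact hx.2 ⟨hx.1, h'⟩
      have dec : ∀ X, ∃ s, (∀ t, s < t → X ∈ U t) ∨ ∀ t, s < t → X ∉ U t := by
        intro X
        refine ⟨e.symm X, ((hg (e.symm X)).2.2.2.1).imp (fun h t ht => ?_) (fun h t ht => ?_)⟩
        · exact mem_of_superset (hZ _ t ht) (by simpa using h)
        · exact Ultrafilter.compl_mem_iff_notMem.1 (mem_of_superset (hZ _ t ht) (by simpa using h))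
      have hnm : ∀ s s' : T, ∃ t, s < t ∧ s' < t := by
        intro s s'
        by_contra hcon
        push Not at hcon
        refine not_countable_univ (((hI (max s s')).insert (max s s')).mono fun t _ => ?_)
        rcases lt_trichotomy t (max s s') with h | h | h
        · exact Or.inr h
        · exact Or.inl h
        · exact absurd (hcon t ((le_max_left _ _).trans_lt h))
            (not_le.2 ((le_max_right _ _).trans_lt h))
      obtain ⟨φ, s, hφ, hs⟩ : ∃ (φ : ℕ → ℕ) (s : T), Function.Injective φ ∧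
          ∀ t, s < t → (⋃ n, D (φ n)) ∉ U t := by
        obtain ⟨s, hs | hs⟩ := dec (⋃ n, D (2 * n))
        · obtain ⟨s', hs' | hs'⟩ := dec (⋃ n, D (2 * n + 1))
          · exfalso
            obtain ⟨t, ht, ht'⟩ := hnm s s'
            obtain ⟨x, hx, hx'⟩ := (U t).nonempty_of_mem (inter_mem (hs t ht) (hs' t ht'))
            obtain ⟨m, hm⟩ := mem_iUnion.1 hx
            obtain ⟨n, hn⟩ := mem_iUnion.1 hx'
            exact disjoint_left.1 (h1 (by omega)) hm hn
          · exact ⟨fun n => 2 * n + 1, s', fun m n h => by simp only at h; omega, hs'⟩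
        · exact ⟨fun n => 2 * n, s, fun m n h => by simp only at h; omega, hs⟩
      obtain ⟨N, hN, hN'⟩ := small U (insert s (Iio s))
        ((le_aleph0_iff_set_countable.2 ((hI s).insert s)).trans_lt aleph0_lt_continuum)
        (D := fun n => D (φ n)) (fun m n h => h1 (hφ.ne h)) (fun n => h2 _)
      refine ⟨φ '' N, hN.image hφ.injOn, fun t => ?_⟩
      rw [biUnion_image]
      rcases lt_trichotomy s t with h | h | h
      · exact fun h' => hs t h (mem_of_superset h' (iUnion₂_subset fun n _ =>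
          subset_iUnion (fun n => D (φ n)) n))
      · exact hN' t (Or.inl h.symm)
      · exact hN' t (Or.inr h)

theorem result : ∃ F : Filter ℕ, F.NeBot ∧ F ≤ cofinite ∧
    (¬ ∀ 𝒜 : Set (Set ℕ), (∀ A ∈ 𝒜, Aᶜ ∉ F) → 𝒜.Pairwise (fun A B => (A ∩ B)ᶜ ∈ F) →
      𝒜.Countable) ∧
    ¬ ∃ D : ℕ → Set ℕ, Pairwise (fun m n => Disjoint (D m) (D n)) ∧ (∀ n, (D n)ᶜ ∈ F) ∧
      ∀ M : Set ℕ, M.Infinite → (⋃ n ∈ M, D n)ᶜ ∉ F := by
  obtain ⟨T, A, U, hT, h1, h2, h3⟩ := family
  have hm : ∀ X, Xᶜ ∈ (⨆ t, (U t : Filter ℕ)) ↔ ∀ t, X ∉ U t := fun X => by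
    simp only [mem_iSup, Ultrafilter.mem_coe, Ultrafilter.compl_mem_iff_notMem]
  obtain ⟨t0⟩ : Nonempty T := inferInstance
  refine ⟨⨆ t, (U t : Filter ℕ), NeBot.mono inferInstance (le_iSup _ t0),
    iSup_le fun t => (h1 t).1, fun h => ?_, ?_⟩
  · have hinj : Function.Injective A := by
      intro s t hst
      by_contra hne
      have := h2 s t hne
      rw [hst, inter_self] at this
      exact Ultrafilter.compl_mem_iff_notMem.1 ((h1 t).1 this.compl_mem_cofinite) (h1 t).2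
    have := h (range A) (by rintro _ ⟨t, rfl⟩ h; exact (hm _).1 h t (h1 t).2)
      (by
        rintro _ ⟨s, rfl⟩ _ ⟨t, rfl⟩ hne
        exact (iSup_le fun t => (h1 t).1 : (⨆ t, (U t : Filter ℕ)) ≤ cofinite)
          (h2 s t fun h => hne (by rw [h])).compl_mem_cofinite)
    rw [← image_univ] at this
    exact not_countable_univ (countable_of_injective_of_countable_image hinj.injOn this)
  · rintro ⟨D, a, b, c⟩
    obtain ⟨M, hM, hM'⟩ := h3 D a fun n => (hm _).1 (b n)
    exact c M hM ((hm _).2 hM')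

end Pool.Agent.Results.MP_78c350_an.No
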